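import Pool.Agent.T9h98.EP.Defs

/-!
# Project EP (MP_727bc7_co), piece THIN: the faces `H T`, `T` a path starting at `0`, are thin
-/

set_option autoImplicit false

open Set
open scoped RealInnerProductSpace

namespace Pool.Agent.T9h89.EP

open Pool.Agent.T9h98.DC Pool.Agent.T9h98.EP

variable {d : ℕ} (D : RD d)

/-- `l` is the parent of `n` -/
def Par (n l : Fin d) : Prop := ((n : ℕ) = 4 ∧ (l : ℕ) = 2) ∨ ((n : ℕ) ≠ 4 ∧ (l : ℕ) + 1 = n)

/-- partial sums along the path `0 - 1 - 2 - 4 - 5 - ⋯` -/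
noncomputable def S (k : Fin d → ℝ) (n : ℕ) : E d :=
  ∑ i ∈ Finset.univ.filter (fun i : Fin d => (i : ℕ) < n ∧ (i : ℕ) ≠ 3), k i • D.α i

theorem inner_S (k : Fin d → ℝ) (n l : Fin d) (h : Par n l) :
    ⟪D.α n, S D k n⟫ = -(D.c * k l) := by
  classical
  unfold S
  rw [inner_sum, Finset.sum_eq_single l]
  · rw [real_inner_smul_right, D.adj n l (by rcases h with h | h <;> exact Fin.lt_def.2 (by omega)),
      if_pos (show ((n : ℕ) = 4 ∧ (l : ℕ) = 2) ∨ ((n : ℕ) ≠ 4 ∧ (l : ℕ) + 1 = n) from h)]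
    ring
  · intro b hb hbl
    have hb' := (Finset.mem_filter.1 hb).2
    rw [real_inner_smul_right, D.adj n b (Fin.lt_def.2 hb'.1), if_neg, mul_zero]
    intro h'
    apply hbl
    apply Fin.ext
    rcases h with h | h <;> rcases h' with h' | h' <;> omega
  · intro hl
    exfalso
    apply hl
    rw [Finset.mem_filter]
    refine ⟨Finset.mem_univ _, ?_, ?_⟩ <;> rcases h with h | h <;> omega

/-- the quadratic form along a path -/
def Good (k : Fin d → ℝ) (z l : Fin d) (v : E d) : Prop :=
  ∃ q : ℝ, 0 ≤ q ∧ ‖v‖ ^ 2 = D.c * (k z ^ 2 + q + k l ^ 2) ∧ (q = 0 → k l = k z)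

theorem good_step (k : Fin d → ℝ) (z n l : Fin d) (h : Par n l) (hg : Good D k z l (S D k n)) :
    Good D k z n (S D k n + k n • D.α n) := by
  obtain ⟨q, hq, h1, h2⟩ := hg
  refine ⟨q + (k l - k n) ^ 2, by positivity, ?_, ?_⟩
  · rw [norm_add_sq_real, h1, real_inner_smul_right, real_inner_comm, inner_S D k n l h, norm_smul, mul_pow,
      ← real_inner_self_eq_norm_sq (D.α n), D.norm n, Real.norm_eq_abs, sq_abs]
    ring
  · intro h0
    have h3 : (k l - k n) ^ 2 = 0 := by
      have := sq_nonneg (k l - k n)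
      linarith
    have h4 : q = 0 := by
      have := sq_nonneg (k l - k n)
      linarith
    have h5 : k l - k n = 0 := by
      exact pow_eq_zero_iff (two_ne_zero) |>.1 h3
    linarith [h2 h4]

theorem good_S (k : Fin d → ℝ) (z : Fin d) (hz : (z : ℕ) = 0) (n : ℕ) (hn : 1 ≤ n) (hd : n ≤ d) :
    ∃ l : Fin d, ((n = 4 ∧ (l : ℕ) = 2) ∨ (n ≠ 4 ∧ (l : ℕ) + 1 = n)) ∧ Good D k z l (S D k n) := by
  classical
  induction n, hn using Nat.le_induction with
  | base =>
    refine ⟨z, Or.inr ⟨by norm_num, by omega⟩, 0, le_refl _, ?_, fun _ => rfl⟩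
    have : Finset.univ.filter (fun i : Fin d => (i : ℕ) < 1 ∧ (i : ℕ) ≠ 3) = {z} := by
      ext i
      simp only [Finset.mem_filter, Finset.mem_univ, true_and, Finset.mem_singleton]
      constructor
      · intro h
        apply Fin.ext
        omega
      · rintro rfl
        omega
    unfold S
    rw [this, Finset.sum_singleton, norm_smul, mul_pow, ← real_inner_self_eq_norm_sq (D.α z), D.norm z,
      Real.norm_eq_abs, sq_abs]
    ring
  | succ n hn ih =>
    obtain ⟨l, hl, hg⟩ := ih (by omega)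
    by_cases h3 : n = 3
    · subst h3
      refine ⟨l, Or.inl ⟨rfl, by omega⟩, ?_⟩
      have : S D k (3 + 1) = S D k 3 := by
        unfold S
        congr 1
        ext i
        simp only [Finset.mem_filter, Finset.mem_univ, true_and]
        omega
      rw [this]
      exact hg
    · have hnd : n < d := by omega
      refine ⟨⟨n, hnd⟩, Or.inr ⟨by omega, rfl⟩, ?_⟩
      have : S D k (n + 1) = S D k n + k ⟨n, hnd⟩ • D.α ⟨n, hnd⟩ := by
        unfold S
        have : Finset.univ.filter (fun i : Fin d => (i : ℕ) < n + 1 ∧ (i : ℕ) ≠ 3) =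
            insert (⟨n, hnd⟩ : Fin d) (Finset.univ.filter (fun i : Fin d => (i : ℕ) < n ∧ (i : ℕ) ≠ 3)) := by
          ext i
          simp only [Finset.mem_filter, Finset.mem_univ, true_and, Finset.mem_insert, Fin.ext_iff]
          omega
        rw [this, Finset.sum_insert, add_comm]
        simp
      rw [this]
      exact good_step D k z ⟨n, hnd⟩ l hl hg

theorem good_lt (k : Fin d → ℝ) (z l : Fin d) (v : E d) (h : Good D k z l v) (h2 : ‖v‖ ^ 2 = 2 * (D.c * k z)) :
    ‖v‖ ^ 2 < 4 * D.c := by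
  obtain ⟨q, hq, h1, h3⟩ := h
  have hc := D.cpos
  have h4 : k z ^ 2 + q + k l ^ 2 = 2 * k z := by
    have : D.c * (k z ^ 2 + q + k l ^ 2) = D.c * (2 * k z) := by
      rw [← h1, h2]
      ring
    exact mul_left_cancel₀ hc.ne' this
  have h5 : k z < 2 := by
    by_contra h6
    push Not at h6
    have h7 : q = 0 := by nlinarith [sq_nonneg (k l)]
    have h8 := h3 h7
    rw [h7, h8] at h4
    nlinarith
  rw [h2]
  nlinarith

theorem path_lt (T : Finset (Fin d)) (hT : (∀ i ∈ T, (i : ℕ) ≠ 3) ∨ ∀ i ∈ T, (i : ℕ) < 4) (hc : RD.Conn T)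
    (k : Fin d → ℝ) (hk : ∀ i, i ∉ T → k i = 0) (z : Fin d) (hz : (z : ℕ) = 0)
    (h2 : ‖∑ i, k i • D.α i‖ ^ 2 = 2 * (D.c * k z)) :
    ‖∑ i, k i • D.α i‖ ^ 2 < 4 * D.c := by
  classical
  have hcp := D.cpos
  have hTs : ∑ i, k i • D.α i = ∑ i ∈ T, k i • D.α i := by
    symm
    apply Finset.sum_subset (Finset.subset_univ _)
    intro i _ hi
    rw [hk i hi, zero_smul]
  rcases T.eq_empty_or_nonempty with rfl | hne
  · rw [hTs, Finset.sum_empty]
    simp
    linarith
  · set m := T.max' hne with hm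
    have hmT : m ∈ T := T.max'_mem hne
    by_cases h3 : ∃ i ∈ T, (i : ℕ) = 3
    · obtain ⟨i, hi, hi3⟩ := h3
      have h4 : ∀ i ∈ T, (i : ℕ) < 4 := by
        rcases hT with h | h
        · exact absurd hi3 (h i hi)
        · exact h
      obtain ⟨l, hl, hg⟩ := good_S D k z hz 3 (by norm_num) (by have := D.hd; omega)
      have hpar : Par i l := by
        right
        omega
      have hg' : Good D k z l (S D k i) := by
        rw [hi3]
        exact hg
      have hgg := good_step D k z i l hpar hg'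
      have hsum : ∑ i, k i • D.α i = S D k i + k i • D.α i := by
        rw [hTs]
        unfold S
        have : T = insert i (Finset.univ.filter (fun j : Fin d => (j : ℕ) < i ∧ (j : ℕ) ≠ 3)) := by
          ext j
          simp only [Finset.mem_filter, Finset.mem_univ, true_and, Finset.mem_insert, Fin.ext_iff]
          constructor
          · intro hj
            have := h4 j hj
            omega
          · rintro (hj | hj)
            · rw [show j = i from Fin.ext hj]
              exact hi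
            · exact hc i hi (Finset.mem_filter.2 ⟨Finset.mem_univ _, Fin.lt_def.2 hj.1, hj.2⟩)
        conv_lhs => rw [this]
        rw [Finset.sum_insert, add_comm]
        simp
      rw [hsum] at h2 ⊢
      exact good_lt D k z i _ hgg h2
    · push Not at h3
      obtain ⟨l, hl, hg⟩ := good_S D k z hz ((m : ℕ) + 1) (by omega) (by have := m.2; omega)
      have hsum : ∑ i, k i • D.α i = S D k ((m : ℕ) + 1) := by
        rw [hTs]
        unfold S
        congr 1
        ext j
        simp only [Finset.mem_filter, Finset.mem_univ, true_and]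
        constructor
        · intro hj
          refine ⟨?_, h3 j hj⟩
          have : j ≤ m := T.le_max' j hj
          have : (j : ℕ) ≤ m := Fin.le_def.1 this
          omega
        · rintro ⟨hj, hj3⟩
          rcases Nat.lt_succ_iff_lt_or_eq.1 hj with h | h
          · exact hc m hmT (Finset.mem_filter.2 ⟨Finset.mem_univ _, Fin.lt_def.2 h, hj3⟩)
          · rw [show j = m from Fin.ext h]
            exact hmT
      rw [hsum] at h2 ⊢
      exact good_lt D k z l _ hg h2

theorem vert_lt (h1 : S_SPAN) (h2 : S_CONE) (h3 : S_GRP) (T : Finset (Fin d))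
    (hT : (∀ i ∈ T, (i : ℕ) ≠ 3) ∨ ∀ i ∈ T, (i : ℕ) < 4) (hc : RD.Conn T)
    (v w : E d) (hv : v ∈ D.VT T) (hw : w ∈ D.VT T) : dist v w ^ 2 < 4 * D.c := by
  classical
  obtain ⟨g, hg, hgv⟩ := (h3 h1 h2 d D).2.2.1 T v hv
  have hgw : g w ∈ D.VT T := by
    have := ((h3 h1 h2 d D).1 T g hg).2 T (Finset.Subset.refl _)
    rw [← this]
    exact mem_image_of_mem _ hw
  obtain ⟨k, hk0, hk⟩ := (h2 h1 d D).1 (g w) hgw.1
  have hkT : ∀ i, i ∉ T → k i = 0 := by
    have hmem : ∑ i, k i • D.α i ∈ Submodule.span ℝ (D.α '' (T : Set (Fin d))) := by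
      rw [← hk]
      exact hgw.2
    intro i hi
    rw [Finsupp.mem_span_image_iff_linearCombination] at hmem
    obtain ⟨f, hf, hfs⟩ := hmem
    have h4 : Finsupp.linearCombination ℝ D.α (Finsupp.equivFunOnFinite.symm k) = ∑ i, k i • D.α i := by
      rw [Finsupp.linearCombination_apply, Finsupp.sum_fintype]
      · rfl
      · intro i
        exact zero_smul ℝ _
    have h5 : f = Finsupp.equivFunOnFinite.symm k := by
      apply D.lin
      rw [hfs, h4]
    have h6 : f i = k i := by
      rw [h5]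
      rfl
    rw [← h6]
    rw [Finsupp.mem_supported] at hf
    by_contra hne
    exact hi (hf (Finsupp.mem_support_iff.2 hne))
  have hd0 : 0 < d := by
    have := D.hd
    omega
  have hdist : dist v w = ‖∑ i, k i • D.α i‖ := by
    rw [← hk, ← hgv, ← map_sub, LinearIsometryEquiv.norm_map, dist_eq_norm]
  rw [hdist]
  apply path_lt D T hT hc k hkT ⟨0, hd0⟩ rfl
  have hn : ‖g w‖ = ‖D.ω‖ := D.nrm _ hgw.1
  have h7 : ‖∑ i, k i • D.α i‖ ^ 2 = 2 * ⟪D.ω, ∑ i, k i • D.α i⟫ := by
    rw [← hk, norm_sub_sq_real, hn, inner_sub_right, real_inner_self_eq_norm_sq]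
    ring
  rw [h7, inner_sum, Finset.sum_eq_single (⟨0, hd0⟩ : Fin d)]
  · rw [real_inner_smul_right, D.ring, if_pos rfl]
    ring
  · intro b _ hb
    rw [real_inner_smul_right, D.ring, if_neg, mul_zero]
    intro h
    exact hb (Fin.ext h)
  · intro h
    exact absurd (Finset.mem_univ _) h

/-- **THIN** -/
theorem thin : S_THIN := by
  intro h1 h2 h3 d D T hT hc x hx y hy
  obtain ⟨x', hx', y', hy', h⟩ := convexHull_exists_dist_ge2 hx hy
  have h4 := vert_lt D h1 h2 h3 T hT hc x' y' hx' hy'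
  have h5 : dist x y ^ 2 ≤ dist x' y' ^ 2 := by
    gcongr
  linarith

end Pool.Agent.T9h89.EP
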